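import Pool.Agent.H30.AV.Targets
import Pool.Agent.H33.Hilbert

/-!
# MOD: generators over `L[t]`
-/

set_option autoImplicit false

namespace Pool.Agent.H56.AV

open MvPolynomial SC Pool.Agent.H27.LV Pool.Agent.H30.AV
open Pool.Agent.H33 (homogeneousComponent_mul_of_homog homogeneousComponent_mul_of_homog_lt)

section

variable {L τ : Type} [Field L]

/-- forms of higher degree -/
theorem mem_high {I : Ideal (MvPolynomial τ L)} {m : ℕ}
    (h : ∀ g : MvPolynomial τ L, g.IsHomogeneous m → g ∈ I) (n : ℕ) :
    ∀ g : MvPolynomial τ L, g.IsHomogeneous (m + n) → g ∈ I := by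
  classical
  induction n with
  | zero => exact h
  | succ n ih =>
    intro g hg
    rw [← MvPolynomial.support_sum_monomial_coeff g]
    refine Ideal.sum_mem _ fun M hM => ?_
    have hdeg : M.degree = m + (n + 1) := by
      by_contra hne
      exact MvPolynomial.mem_support_iff.1 hM (hg.coeff_eq_zero hne)
    obtain ⟨i, hi⟩ : ∃ i, M i ≠ 0 := by
      by_contra hcon
      push Not at hcon
      have : M = 0 := Finsupp.ext hcon
      rw [this, map_zero] at hdeg
      omega
    have hle : Finsupp.single i 1 ≤ M := by
      rw [Finsupp.single_le_iff]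
      omega
    have h1 : monomial M (coeff M g) = X i * monomial (M - Finsupp.single i 1) (coeff M g) := by
      rw [X, monomial_mul, one_mul, add_tsub_cancel_of_le hle]
    rw [h1]
    refine I.mul_mem_left _ (ih _ (isHomogeneous_monomial _ ?_))
    have h2 := congrArg Finsupp.degree (add_tsub_cancel_of_le hle)
    rw [map_add, Finsupp.degree_single, hdeg] at h2
    omega

/-- representation with homogeneous factors -/
theorem rep_homog {κ : Type} [Fintype κ] {P : Ideal (MvPolynomial τ L)}
    {t : κ → MvPolynomial τ L} (hP : IsHom P) (ht : ∀ i, (t i).IsHomogeneous 1) {N : ℕ}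
    {g : MvPolynomial τ L} (hg : g.IsHomogeneous (N + 1))
    (hgI : g ∈ P ⊔ Ideal.span (Set.range t)) :
    ∃ h : κ → MvPolynomial τ L, (∀ i, (h i).IsHomogeneous N) ∧ g - ∑ i, t i * h i ∈ P := by
  obtain ⟨p, hp, q, hq, hpq⟩ := Submodule.mem_sup.1 hgI
  obtain ⟨h, hh⟩ := Ideal.mem_span_range_iff_exists_fun.1 hq
  refine ⟨fun i => homogeneousComponent N (h i), fun i => homogeneousComponent_isHomogeneous N _,
    ?_⟩
  have h1 : g = homogeneousComponent (N + 1) g := (homogeneousComponent_eq_self hg).symm
  have h2 : homogeneousComponent (N + 1) g = homogeneousComponent (N + 1) p +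
      ∑ i, t i * homogeneousComponent N (h i) := by
    rw [← hpq, ← hh, map_add, map_sum]
    congr 1
    refine Finset.sum_congr rfl fun i _ => ?_
    rw [mul_comm (h i)]
    exact homogeneousComponent_mul_of_homog (ht i) N
  rw [h1, h2, add_sub_cancel_right]
  exact hP p hp _

end

theorem pf_MOD : T_MOD := by
  intro L τ _ _ β m P t hP ht hm
  classical
  -- small degrees
  have hsmall : ∀ (N : ℕ) (g : MvPolynomial τ L), g.IsHomogeneous N → N < m →
      ∃ (s : Finset (τ →₀ ℕ)) (c : (τ →₀ ℕ) → MvPolynomial (Fin (β + 2)) L),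
        (∀ M ∈ s, M.degree < m ∧ M.degree ≤ N ∧ (c M).IsHomogeneous (N - M.degree)) ∧
        g - ∑ M ∈ s, aeval t (c M) * monomial M 1 ∈ P := by
    intro N g hg hN
    refine ⟨g.support, fun M => C (coeff M g), fun M hM => ?_, ?_⟩
    · have hdeg : M.degree = N := by
        by_contra hne
        exact MvPolynomial.mem_support_iff.1 hM (hg.coeff_eq_zero hne)
      rw [hdeg, Nat.sub_self]
      exact ⟨hN, le_rfl, isHomogeneous_C _ _⟩
    · have h1 : ∑ M ∈ g.support, aeval t (C (coeff M g)) * monomial M (1 : L) = g := by
        conv_rhs => rw [← MvPolynomial.support_sum_monomial_coeff g]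
        refine Finset.sum_congr rfl fun M _ => ?_
        rw [aeval_C, algebraMap_eq, C_mul_monomial, mul_one]
      rw [h1, sub_self]
      exact P.zero_mem
  intro N
  induction N with
  | zero =>
    intro g hg
    rcases Nat.eq_zero_or_pos m with h0 | h0
    · subst h0
      obtain ⟨p, hp, q, hq, hpq⟩ := Submodule.mem_sup.1 (hm 1 (isHomogeneous_one _ _))
      obtain ⟨h, hh⟩ := Ideal.mem_span_range_iff_exists_fun.1 hq
      have h2 : homogeneousComponent 0 (1 : MvPolynomial τ L) = homogeneousComponent 0 p := by
        rw [← hpq, ← hh, map_add, map_sum, Finset.sum_eq_zero, add_zero]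
        intro i _
        rw [mul_comm (h i)]
        exact homogeneousComponent_mul_of_homog_lt (ht i) one_pos
      have h3 : (1 : MvPolynomial τ L) ∈ P := by
        have h4 : homogeneousComponent 0 (1 : MvPolynomial τ L) = 1 :=
          homogeneousComponent_eq_self (isHomogeneous_one _ _)
        rw [← h4, h2]
        exact hP p hp 0
      refine ⟨∅, fun _ => 0, fun M hM => absurd hM (Finset.notMem_empty M), ?_⟩
      rw [Finset.sum_empty, sub_zero]
      have := P.mul_mem_left g h3
      rwa [mul_one] at this
    · exact hsmall 0 g hg h0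
  | succ N ih =>
    intro g hg
    rcases Nat.lt_or_ge (N + 1) m with h0 | h0
    · exact hsmall (N + 1) g hg h0
    have hgI : g ∈ P ⊔ Ideal.span (Set.range t) := by
      refine mem_high hm (N + 1 - m) g ?_
      rwa [Nat.add_sub_cancel' h0]
    obtain ⟨h, hh, hgP⟩ := rep_homog hP ht hg hgI
    choose s c hs hc using fun i => ih (h i) (hh i)
    refine ⟨Finset.univ.biUnion s, fun M => ∑ i, if M ∈ s i then X i * c i M else 0,
      fun M hM => ?_, ?_⟩
    · obtain ⟨i, -, hi⟩ := Finset.mem_biUnion.1 hM
      obtain ⟨h1, h2, -⟩ := hs i M hi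
      refine ⟨h1, by omega, ?_⟩
      refine IsHomogeneous.sum _ _ _ fun j _ => ?_
      split_ifs with hj
      · have h3 := (isHomogeneous_X L j).mul (hs j M hj).2.2
        have h4 : 1 + (N - M.degree) = N + 1 - M.degree := by omega
        rwa [h4] at h3
      · exact isHomogeneous_zero _ _ _
    · have h5 : ∑ M ∈ Finset.univ.biUnion s,
          aeval t (∑ i, if M ∈ s i then X i * c i M else 0) * monomial M (1 : L) =
          ∑ i, t i * ∑ M ∈ s i, aeval t (c i M) * monomial M (1 : L) := by
        have h6 : ∀ M, aeval t (∑ i, if M ∈ s i then X i * c i M else 0) * monomial M (1 : L) =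
            ∑ i, if M ∈ s i then t i * (aeval t (c i M) * monomial M (1 : L)) else 0 := by
          intro M
          rw [map_sum, Finset.sum_mul]
          refine Finset.sum_congr rfl fun i _ => ?_
          split_ifs with hi
          · rw [map_mul, aeval_X, mul_assoc]
          · rw [map_zero, zero_mul]
        rw [Finset.sum_congr rfl fun M _ => h6 M, Finset.sum_comm]
        refine Finset.sum_congr rfl fun i _ => ?_
        rw [Finset.mul_sum, ← Finset.sum_filter]
        congr 1
        ext M
        rw [Finset.mem_filter]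
        exact ⟨fun h7 => h7.2, fun h7 =>
          ⟨Finset.mem_biUnion.2 ⟨i, Finset.mem_univ i, h7⟩, h7⟩⟩
      rw [h5]
      have h8 : g - ∑ i, t i * ∑ M ∈ s i, aeval t (c i M) * monomial M (1 : L) =
          (g - ∑ i, t i * h i) +
            ∑ i, t i * (h i - ∑ M ∈ s i, aeval t (c i M) * monomial M (1 : L)) := by
        simp only [mul_sub, Finset.sum_sub_distrib]
        ring
      rw [h8]
      exact P.add_mem hgP (Ideal.sum_mem _ fun i _ => P.mul_mem_left _ (hc i))

end Pool.Agent.H56.AV
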